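import Pool.Agent.H5.RPG.Stmts

/-!
Row CNT of the board rpg (MP_e3dc0b_lc): the number of failures.
-/

set_option autoImplicit false

namespace Pool.RPG

open Filter TMLib Pool.PG

namespace CNTA

/-- The bound of `n x ^ n`. -/
theorem bdd {x : ℝ} (h0 : 0 ≤ x) (h1 : x < 1) : ∃ B : ℝ, 0 ≤ B ∧ ∀ n : ℕ, (n : ℝ) * x ^ n ≤ B := by
  obtain ⟨B, hB⟩ := (tendsto_self_mul_const_pow_of_lt_one h0 h1).bddAbove_range
  exact ⟨max B 0, le_max_right _ _, fun n => le_trans (hB ⟨n, rfl⟩) (le_max_left _ _)⟩

theorem card_all (n d : ℕ) : Fintype.card (Fin n → Fin d → Fin n) = n ^ (d * n) := by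
  rw [Fintype.card_fun, Fintype.card_fun, Fintype.card_fin, Fintype.card_fin, pow_mul]

/-- The term of a set with `u` elements. -/
def gt (n d r u : ℕ) : ℕ :=
  (n ^ d) ^ (n - u) * (u * (d ^ 2 * u ^ 2 * r ^ (d - 2)) * (d * u * r ^ (d - 1)) ^ (u - 1))

open Classical in
/-- The failures with large attractors. -/
def Ft {n d : ℕ} (r : ℕ) (o e : Fin n → Bool) (s : Fin n → Fin d → Fin n) : Prop :=
  (∀ i : Bool, (Finset.univ.filter fun w => w ∉ RS i o e s ∅).card ≤ r) ∧ Fail o e s

open Classical in
theorem count_W (h3 : CNUStmt) (n d r : ℕ) (o e : Fin n → Bool) :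
    (Finset.univ.filter fun s : Fin n → Fin d → Fin n => Ft r o e s).card ≤
      ∑ u ∈ Finset.Icc 1 n, n.choose u * gt n d r u := by
  have h1 : (Finset.univ.filter fun s : Fin n → Fin d → Fin n => Ft r o e s) ⊆
      ((Finset.univ : Finset (Fin n)).powerset.filter fun W => W.Nonempty).biUnion fun W =>
        Finset.univ.filter fun s : Fin n → Fin d → Fin n => Lf o e s = (W : Set (Fin n)) ∧
          (∀ v ∈ W, (Finset.univ.filter fun w => w ∉ RS (o v) o e s ∅).card ≤ r) ∧
          Fail o e s := by
    intro s hs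
    obtain ⟨ha, hb⟩ := (Finset.mem_filter.1 hs).2
    rw [Finset.mem_biUnion]
    have hW : Lf o e s = ((Finset.univ.filter fun v => v ∈ Lf o e s : Finset (Fin n)) :
        Set (Fin n)) := by
      ext v
      simp
    refine ⟨Finset.univ.filter fun v => v ∈ Lf o e s, ?_, ?_⟩
    · rw [Finset.mem_filter]
      obtain ⟨v, hv, _⟩ := hb
      exact ⟨Finset.mem_powerset.2 (Finset.subset_univ _),
        ⟨v, Finset.mem_filter.2 ⟨Finset.mem_univ _, hv⟩⟩⟩
    · rw [Finset.mem_filter]
      exact ⟨Finset.mem_univ _, hW, fun v _ => ha (o v), hb⟩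
  refine le_trans (Finset.card_le_card h1) (le_trans Finset.card_biUnion_le ?_)
  have h2 : ∀ W ∈ (Finset.univ : Finset (Fin n)).powerset.filter fun W => W.Nonempty,
      (Finset.univ.filter fun s : Fin n → Fin d → Fin n => Lf o e s = (W : Set (Fin n)) ∧
          (∀ v ∈ W, (Finset.univ.filter fun w => w ∉ RS (o v) o e s ∅).card ≤ r) ∧
          Fail o e s).card ≤ gt n d r W.card := fun W _ => h3 n d r o e W
  refine le_trans (Finset.sum_le_sum h2) (le_of_eq ?_)
  have h4 : (∑ W ∈ (Finset.univ : Finset (Fin n)).powerset.filter fun W => W.Nonempty,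
      gt n d r W.card) = ∑ W ∈ (Finset.univ : Finset (Fin n)).powerset,
        (fun u => if u = 0 then 0 else gt n d r u) W.card := by
    rw [Finset.sum_filter]
    refine Finset.sum_congr rfl fun W _ => ?_
    by_cases hW : W.Nonempty
    · rw [if_pos hW]
      dsimp only
      rw [if_neg (Finset.card_pos.2 hW).ne']
    · rw [if_neg hW]
      dsimp only
      rw [if_pos (Finset.card_eq_zero.2 (Finset.not_nonempty_iff_eq_empty.1 hW))]
  rw [h4, Finset.sum_powerset_apply_card (fun u => if u = 0 then 0 else gt n d r u),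
    Finset.card_univ, Fintype.card_fin]
  rw [Finset.sum_range_succ', if_pos rfl, smul_zero, add_zero]
  rw [Finset.range_eq_Ico, Finset.sum_Ico_add' (fun u => n.choose u • if u = 0 then 0 else
    gt n d r u) 0 n 1, zero_add]
  refine Finset.sum_congr (by ext u; simp only [Finset.mem_Ico, Finset.mem_Icc]; omega)
    fun u hu => ?_
  rw [if_neg (by have := (Finset.mem_Icc.1 hu).1; omega), smul_eq_mul]

end CNTA

open CNTA in
open Classical in
theorem cnt_thm (h1 : LRGStmt) (h2 : CNBStmt) (h3 : CNUStmt) (h4 : SUMStmt) (h5 : NUMStmt) :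
    CNTStmt := by
  intro δ d hδ hd
  by_cases hδ2 : δ ≤ 1 / 2
  swap
  · refine ⟨0, le_rfl, fun n o e h => ?_⟩
    rcases Nat.eq_zero_or_pos n with rfl | hn
    · simp
    · exfalso
      have ht := h true
      have hf := h false
      have hle : (Finset.univ.filter fun v => o v = true ∧ e v = true).card +
          (Finset.univ.filter fun v => o v = false ∧ e v = false).card ≤ n := by
        rw [← Finset.card_union_of_disjoint]
        · refine le_trans (Finset.card_le_univ _) (by rw [Fintype.card_fin])
        · rw [Finset.disjoint_left]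
          intro v hv hv'
          have a := (Finset.mem_filter.1 hv).2.1
          have b := (Finset.mem_filter.1 hv').2.1
          rw [a] at b
          exact absurd b (by decide)
      have hle' : ((Finset.univ.filter fun v => o v = true ∧ e v = true).card : ℝ) +
          ((Finset.univ.filter fun v => o v = false ∧ e v = false).card : ℝ) ≤ n := by
        exact_mod_cast hle
      have hn' : (0 : ℝ) < n := by exact_mod_cast hn
      have hδ3 : (1 : ℝ) / 2 < δ := not_le.1 hδ2
      nlinarith
  · obtain ⟨hd56, hx, hρ0, hρ⟩ := h5 δ d hδ hδ2 hd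
    set x : ℝ := 4 * Real.exp (-((8 * δ / 25) ^ 2 * d)) with hxdef
    obtain ⟨B, hB0, hB⟩ := bdd (x := x) (by positivity) hx
    refine ⟨50 / δ + B + 36 * d ^ 2, by positivity, fun n o e h => ?_⟩
    have hN : (0 : ℝ) ≤ (n : ℝ) ^ (d * n) := by positivity
    rcases lt_or_ge (n : ℝ) (50 / δ) with hn | hn
    · have e1 : ((Finset.univ.filter fun s : Fin n → Fin d → Fin n => Fail o e s).card : ℝ) ≤
          (n : ℝ) ^ (d * n) := by
        have e2 : (Finset.univ.filter fun s : Fin n → Fin d → Fin n => Fail o e s).card ≤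
            n ^ (d * n) := by
          rw [← card_all]
          exact Finset.card_le_univ _
        exact_mod_cast e2
      calc (n : ℝ) * ((Finset.univ.filter fun s : Fin n → Fin d → Fin n => Fail o e s).card : ℝ)
          ≤ (50 / δ) * (n : ℝ) ^ (d * n) := mul_le_mul hn.le e1 (by positivity) (by positivity)
        _ ≤ (50 / δ + B + 36 * d ^ 2) * (n : ℝ) ^ (d * n) := by
            refine mul_le_mul_of_nonneg_right ?_ hN
            have : (0 : ℝ) ≤ 36 * d ^ 2 := by positivity
            linarith
    · have hn0 : (0 : ℝ) < n := lt_of_lt_of_le (by positivity) hn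
      have hn1 : 0 < n := by exact_mod_cast hn0
      have hδn : 50 ≤ δ * n := by
        rw [div_le_iff₀ hδ] at hn
        linarith
      set r : ℕ := ⌊(1 - 17 * δ / 25) * n⌋₊ with hr
      have hr1 : (r : ℝ) ≤ (1 - 17 * δ / 25) * n := Nat.floor_le (by positivity)
      have hsub : (Finset.univ.filter fun s : Fin n → Fin d → Fin n => Fail o e s) ⊆
          (Finset.univ.filter fun s : Fin n → Fin d → Fin n => Bad (8 * δ / 25) s) ∪
            (Finset.univ.filter fun s : Fin n → Fin d → Fin n => Ft r o e s) := by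
        intro s hs
        have hs' := (Finset.mem_filter.1 hs).2
        rw [Finset.mem_union]
        by_cases hb : Bad (8 * δ / 25) s
        · exact Or.inl (Finset.mem_filter.2 ⟨Finset.mem_univ _, hb⟩)
        · refine Or.inr (Finset.mem_filter.2 ⟨Finset.mem_univ _, fun i => ?_, hs'⟩)
          have e1 := h1 n d δ (8 * δ / 25) i o e s (by positivity) (by linarith) (h i) hb
          have e2 : δ * n ≤ ((Finset.univ.filter fun v => o v = i).card : ℝ) := by
            refine le_trans (h i) ?_
            have e3 : (Finset.univ.filter fun v => o v = i ∧ e v = i).card ≤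
                (Finset.univ.filter fun v => o v = i).card :=
              Finset.card_le_card fun v hv => Finset.mem_filter.2
                ⟨Finset.mem_univ _, (Finset.mem_filter.1 hv).2.1⟩
            exact_mod_cast e3
          refine Nat.le_floor ?_
          refine le_trans e1 ?_
          linarith
      have hc : ((Finset.univ.filter fun s : Fin n → Fin d → Fin n => Fail o e s).card : ℝ) ≤
          ((Finset.univ.filter fun s : Fin n → Fin d → Fin n => Bad (8 * δ / 25) s).card : ℝ) +
            ((Finset.univ.filter fun s : Fin n → Fin d → Fin n => Ft r o e s).card : ℝ) := by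
        exact_mod_cast le_trans (Finset.card_le_card hsub) (Finset.card_union_le _ _)
      have hbad := h2 n d (8 * δ / 25) (by positivity) (by linarith) hn1
      rw [← hxdef] at hbad
      have hft : ((Finset.univ.filter fun s : Fin n → Fin d → Fin n => Ft r o e s).card : ℝ) ≤
          ∑ u ∈ Finset.Icc 1 n, (n.choose u : ℝ) * (((n : ℝ) ^ d) ^ (n - u) *
            (u * (d ^ 2 * u ^ 2 * (r : ℝ) ^ (d - 2)) * (d * u * (r : ℝ) ^ (d - 1)) ^ (u - 1))) := by
        have e1 : ((Finset.univ.filter fun s : Fin n → Fin d → Fin n => Ft r o e s).card : ℝ) ≤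
            ((∑ u ∈ Finset.Icc 1 n, n.choose u * gt n d r u : ℕ) : ℝ) := by
          exact_mod_cast count_W h3 n d r o e
        refine le_trans e1 (le_of_eq ?_)
        unfold gt
        push_cast
        rfl
      have hsum := h4 n d r (1 - 17 * δ / 25) hn1 (by omega) hρ0 (by linarith) hr1 hρ
      calc (n : ℝ) * ((Finset.univ.filter fun s : Fin n → Fin d → Fin n => Fail o e s).card : ℝ)
          ≤ (n : ℝ) * (((Finset.univ.filter fun s : Fin n → Fin d → Fin n =>
              Bad (8 * δ / 25) s).card : ℝ) +
              ((Finset.univ.filter fun s : Fin n → Fin d → Fin n => Ft r o e s).card : ℝ)) :=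
            mul_le_mul_of_nonneg_left hc hn0.le
        _ = (n : ℝ) * ((Finset.univ.filter fun s : Fin n → Fin d → Fin n =>
              Bad (8 * δ / 25) s).card : ℝ) +
            (n : ℝ) * ((Finset.univ.filter fun s : Fin n → Fin d → Fin n =>
              Ft r o e s).card : ℝ) := mul_add _ _ _
        _ ≤ (n : ℝ) * (x ^ n * (n : ℝ) ^ (d * n)) + 36 * d ^ 2 * (n : ℝ) ^ (d * n) :=
            add_le_add (mul_le_mul_of_nonneg_left hbad hn0.le)
              (le_trans (mul_le_mul_of_nonneg_left hft hn0.le) hsum)
        _ = ((n : ℝ) * x ^ n) * (n : ℝ) ^ (d * n) + 36 * d ^ 2 * (n : ℝ) ^ (d * n) := by ring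
        _ ≤ B * (n : ℝ) ^ (d * n) + 36 * d ^ 2 * (n : ℝ) ^ (d * n) := by
            have := mul_le_mul_of_nonneg_right (hB n) hN
            linarith
        _ ≤ (50 / δ + B + 36 * d ^ 2) * (n : ℝ) ^ (d * n) := by
            have e1 : (0 : ℝ) ≤ 50 / δ * (n : ℝ) ^ (d * n) := by positivity
            nlinarith

end Pool.RPG
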